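import Pool.Agent.W795.DD.Stm
import Pool.Agent.W785.DF.Alg

/-!
Project DD (helper795): decomposition of a trigonometric field into modes.
-/

set_option autoImplicit false

namespace Pool.Agent.W333.DD

open H459R3.NS (K3)
open Pool.Agent.W785.DF Pool.Agent.W795.DD

/-- The three vectors orthogonal to `k`. -/
def p1 (k : K3) : K3 := ![k 1, -k 0, 0]
def p2 (k : K3) : K3 := ![k 2, 0, -k 0]
def p3 (k : K3) : K3 := ![0, k 2, -k 1]

/-- The coefficients. -/
noncomputable def z1 (k : K3) (v : E3) : ℂ := ((k 1 : ℂ) * v 0 - k 0 * v 1) / (W785.DF.sq k : ℂ)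
noncomputable def z2 (k : K3) (v : E3) : ℂ := ((k 2 : ℂ) * v 0 - k 0 * v 2) / (W785.DF.sq k : ℂ)
noncomputable def z3 (k : K3) (v : E3) : ℂ := ((k 2 : ℂ) * v 1 - k 1 * v 2) / (W785.DF.sq k : ℂ)

lemma orth (k : K3) : ∑ j, k j * p1 k j = 0 ∧ ∑ j, k j * p2 k j = 0 ∧ ∑ j, k j * p3 k j = 0 := by
  refine ⟨?_, ?_, ?_⟩ <;> rw [Fin.sum_univ_three] <;> simp [p1, p2, p3] <;> ring

lemma kv_apply (k : K3) (i : Fin 3) : kv k i = (k i : ℂ) := rfl

lemma decomp {k : K3} (hk : k ≠ 0) {v : E3} (h : dk k v = 0) :
    z1 k v • kv (p1 k) + z2 k v • kv (p2 k) + z3 k v • kv (p3 k) = v := by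
  have hs : (W785.DF.sq k : ℂ) ≠ 0 := by exact_mod_cast (sq_pos' hk).ne'
  have hs2 : (W785.DF.sq k : ℂ) = (k 0 : ℂ) ^ 2 + (k 1 : ℂ) ^ 2 + (k 2 : ℂ) ^ 2 := by
    unfold W785.DF.sq
    rw [Fin.sum_univ_three]
    push_cast
    ring
  unfold dk at h
  rw [Fin.sum_univ_three] at h
  ext i
  simp only [PiLp.add_apply, PiLp.smul_apply, smul_eq_mul, kv_apply]
  unfold z1 z2 z3
  fin_cases i
  · simp only [p1, p2, p3]
    simp only [Fin.zero_eta, Fin.isValue, Matrix.cons_val_zero, Int.cast_zero, mul_zero, add_zero]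
    field_simp
    rw [hs2]
    linear_combination (-(k 0 : ℂ)) * h
  · simp only [p1, p2, p3]
    simp only [Fin.mk_one, Fin.isValue, Matrix.cons_val_one, Matrix.cons_val_zero, Int.cast_neg,
      Int.cast_zero, mul_zero, add_zero]
    field_simp
    rw [hs2]
    linear_combination (-(k 1 : ℂ)) * h
  · simp only [p1, p2, p3]
    simp only [Fin.reduceFinMk, Fin.isValue, Matrix.cons_val, Int.cast_neg,
      Int.cast_zero, mul_zero, zero_add]
    field_simp
    rw [hs2]
    linear_combination (-(k 2 : ℂ)) * h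

lemma cj_kv (k : K3) : cj (kv k) = kv k := by
  ext i
  rw [cj_apply, kv_apply]
  simp

lemma decomp_star {k : K3} (hk : k ≠ 0) {v : E3} (h : dk k v = 0) :
    star (z1 k v) • kv (p1 k) + star (z2 k v) • kv (p2 k) + star (z3 k v) • kv (p3 k) = cj v := by
  conv_rhs => rw [← decomp hk h]
  rw [cj_add, cj_add, cj_smul, cj_smul, cj_smul, cj_kv, cj_kv, cj_kv]

lemma kv_zero : kv (0 : K3) = 0 := by
  ext i
  simp [kv_apply]

lemma MF_zero (μ : K3) (z : ℂ) : MF μ 0 z = 0 := by
  funext k
  unfold MF
  rw [kv_zero]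
  simp

/-- The list of a frequency. -/
noncomputable def lk (k : K3) (v : E3) : List (K3 × K3 × ℂ) :=
  [(k, p1 k, z1 k v / 2), (k, p2 k, z2 k v / 2), (k, p3 k, z3 k v / 2)]

open Classical in
lemma sum_filter (l : List (K3 × K3 × ℂ)) :
    ((l.filter (fun τ => τ.2.1 ≠ 0)).map fun τ => MF τ.1 τ.2.1 τ.2.2).sum =
      (l.map fun τ => MF τ.1 τ.2.1 τ.2.2).sum := by
  induction l with
  | nil => rfl
  | cons τ l ih =>
    by_cases h : τ.2.1 = 0
    · rw [List.filter_cons_of_neg (by simpa using h), ih, List.map_cons, List.sum_cons, h, MF_zero,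
        zero_add]
    · rw [List.filter_cons_of_pos (by simpa using h), List.map_cons, List.sum_cons, ih,
        List.map_cons, List.sum_cons]

/-- The field of a frequency. -/
noncomputable def GG (k : K3) (v : E3) : K3 → E3 :=
  ((lk k v).map fun τ => MF τ.1 τ.2.1 τ.2.2).sum

lemma GG_apply {k : K3} (hk : k ≠ 0) {v : E3} (h : dk k v = 0) (m : K3) :
    GG k v m = if m = k then (1 / 2 : ℂ) • v else if m = -k then (1 / 2 : ℂ) • cj v else 0 := by
  unfold GG lk
  simp only [List.map_cons, List.map_nil, List.sum_cons, List.sum_nil, add_zero, Pi.add_apply]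
  unfold MF
  by_cases h1 : m = k
  · simp only [if_pos h1]
    conv_rhs => rw [← decomp hk h]
    rw [smul_add, smul_add, smul_smul, smul_smul, smul_smul, ← add_assoc]
    congr 1
    · congr 1
      · congr 1; ring
      · congr 1; ring
    · congr 1; ring
  · simp only [if_neg h1]
    by_cases h2 : m = -k
    · simp only [if_pos h2]
      rw [← decomp_star hk h, smul_add, smul_add, smul_smul, smul_smul, smul_smul, ← add_assoc]
      have h3 : ∀ z : ℂ, star (z / 2) = 1 / 2 * star z := by
        intro z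
        rw [star_div₀]
        have : star (2 : ℂ) = 2 := by simp
        rw [this]
        ring
      rw [h3, h3, h3]
    · simp only [if_neg h2, add_zero]

/-- DD-MODES. -/
theorem proof : S_modes := by
  classical
  intro F hF b hb
  refine ⟨F.toList.flatMap fun k => (lk k (b k)).filter (fun τ => τ.2.1 ≠ 0), ?_, ?_⟩
  · intro τ hτ
    rw [List.mem_flatMap] at hτ
    obtain ⟨k, hk, hτ⟩ := hτ
    rw [List.mem_filter] at hτ
    obtain ⟨h1, h2⟩ := hτ
    have hkF : k ∈ F := Finset.mem_toList.1 hk
    have h3 := orth k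
    refine ⟨?_, by simpa using h2, ?_⟩
    · unfold lk at h1
      simp only [List.mem_cons, List.not_mem_nil, or_false] at h1
      rcases h1 with rfl | rfl | rfl <;> exact hkF
    · unfold lk at h1
      simp only [List.mem_cons, List.not_mem_nil, or_false] at h1
      rcases h1 with rfl | rfl | rfl
      · exact h3.1
      · exact h3.2.1
      · exact h3.2.2
  · have h1 : ∀ l : List K3, ((l.flatMap fun k => (lk k (b k)).filter (fun τ => τ.2.1 ≠ 0)).map
        fun τ => MF τ.1 τ.2.1 τ.2.2).sum = (l.map fun k => GG k (b k)).sum := by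
      intro l
      induction l with
      | nil => rfl
      | cons k l ih =>
        rw [List.flatMap_cons, List.map_append, List.sum_append, ih, sum_filter, List.map_cons,
          List.sum_cons]
        rfl
    rw [h1, Finset.sum_map_toList]
    funext m
    rw [Finset.sum_apply]
    have h2 : ∀ k ∈ F, GG k (b k) m = (if k = m then (1 / 2 : ℂ) • b m else 0) +
        (if k = -m then (1 / 2 : ℂ) • b m else 0) := by
      intro k hk
      have hk0 := hF.ne hk
      rw [GG_apply hk0 (hb.div k)]
      have hkk : ∀ x : K3, x = -x → x = 0 := by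
        intro x hx
        funext j
        have := congrFun hx j
        simp only [Pi.neg_apply] at this
        have h5 : x j = 0 := by omega
        rw [h5]; rfl
      by_cases h3 : m = k
      · have h4 : ¬ k = -m := by
          intro h
          apply hk0
          apply hkk
          rw [h3] at h
          exact h
        rw [if_pos h3, if_pos h3.symm, if_neg h4, add_zero, h3]
      · have h3' : ¬ k = m := fun h => h3 h.symm
        rw [if_neg h3, if_neg h3', zero_add]
        by_cases h4 : m = -k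
        · have h5 : k = -m := by rw [h4, neg_neg]
          rw [if_pos h4, if_pos h5, h4, hb.sym]
        · have h5 : ¬ k = -m := fun h => h4 (by rw [h, neg_neg])
          rw [if_neg h4, if_neg h5]
    rw [Finset.sum_congr rfl h2, Finset.sum_add_distrib, Finset.sum_ite_eq', Finset.sum_ite_eq']
    by_cases hm : m ∈ F
    · rw [if_pos hm, if_pos (hF.neg m hm), ← add_smul]
      norm_num
    · have hm' : -m ∉ F := fun h => hm (by simpa using hF.neg _ h)
      rw [if_neg hm, if_neg hm', add_zero, hb.supp m hm]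

end Pool.Agent.W333.DD
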